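import Pool.Agent.Lib.MP_c6b81c_an.Domain
import Pool.Agent.Lib.MP_c6b81c_an.Chains

/-!
No number `K` of discs suffices to realise Kobayashi distances on strongly pseudoconvex domains:
for every dimension `n ≥ 2`, every `K` and every `M` there are a bounded strongly pseudoconvex
domain `Ω ⊆ ℂⁿ` and points `z, w ∈ Ω` such that every Kobayashi chain of `K` discs from `z` to `w`
has length larger than `k_Ω(z, w) + M`.
-/

open Complex Metric Set Pool.Agent.Lib.MP_c6b81c_an

namespace Pool.Agent.Results.MP_c6b81c_an.NoUniformK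

/-- For all `n ≥ 2`, `K` and `M` there are a bounded strongly pseudoconvex domain `Ω ⊆ ℂⁿ` and
points `z, w ∈ Ω` (joined by some Kobayashi chain) such that every Kobayashi chain of `K` discs
from `z` to `w` has length greater than `k_Ω(z, w) + M`. -/
theorem result (n : ℕ) (hn : 2 ≤ n) (K : ℕ) (M : ℝ) :
    ∃ Ω : Set (Cn n), IsStronglyPseudoconvexDomain Ω ∧ ∃ z ∈ Ω, ∃ w ∈ Ω,
      (∃ m : ℕ, Nonempty (KobayashiChain Ω m z w)) ∧
      ∀ c : KobayashiChain Ω K z w, kobayashiDist Ω z w + M < c.length := by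
  obtain ⟨m, rfl⟩ := Nat.exists_eq_add_of_le' hn
  set N : ℕ := 2 * K + 1 with hN
  obtain ⟨R, hR⟩ := exists_domain m N
  have hA : ∀ i : ℕ, (0 : ℝ) ≤ (i : ℝ) + 1 := fun i => by positivity
  choose Ω hspd hΩ hdisc using fun i : ℕ => hR ((i : ℝ) + 1) (hA i)
  by_contra hcon
  push Not at hcon
  have hz : ∀ i, vec m 0 0 ∈ Ω i := fun i => by
    have h := (zigChain (hdisc i)).mem 0 (Nat.zero_le _)
    rwa [(zigChain (hdisc i)).start] at h
  have hw : ∀ i, vec m N N ∈ Ω i := fun i => by
    have h := (zigChain (hdisc i)).mem (2 * N) le_rfl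
    rwa [(zigChain (hdisc i)).finish] at h
  choose c hc using fun i : ℕ => hcon (Ω i) (hspd i) (vec m 0 0) (hz i) (vec m N N) (hw i)
    ⟨2 * N, ⟨zigChain (hdisc i)⟩⟩
  apply no_short_chains (C := 2 * N * poincareDist (-(1 / 2)) (1 / 2) + M)
    (show 3 * K < 2 * N by omega) hΩ c
  intro i
  have h1 := kobayashiDist_le (zigChain (hdisc i))
  rw [zigChain_length] at h1
  linarith [hc i]

end Pool.Agent.Results.MP_c6b81c_an.NoUniformK
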